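import Pool.Agent.MP_357fb4_an.Iff.Main

namespace Pool.Agent.Results.MP_357fb4_an.HittingIff

/-- For functions of polynomial growth from a Hardy field, the hypothesis of the question is
equivalent to joint hitting along the primes in ergodic systems, and to its optimal form. -/
theorem result (k : ℕ) (a : Fin k → ℝ → ℝ)
    (hH : ∃ R : Subring (Filter.Germ (Filter.atTop : Filter ℝ) ℝ),
      (∀ g ∈ R, g ≠ 0 → ∃ h ∈ R, g * h = 1) ∧
      (∀ f : ℝ → ℝ, (↑f : Filter.Germ (Filter.atTop : Filter ℝ) ℝ) ∈ R →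
        (∀ᶠ t in Filter.atTop, DifferentiableAt ℝ f t) ∧
        (↑(deriv f) : Filter.Germ (Filter.atTop : Filter ℝ) ℝ) ∈ R) ∧
      (∀ i, (↑(a i) : Filter.Germ (Filter.atTop : Filter ℝ) ℝ) ∈ R))
    (hg : ∀ i, ∃ d : ℕ, ∀ᶠ t in Filter.atTop, |a i t| ≤ t ^ d) :
    List.TFAE
      [∀ c : Fin k → ℝ, c ≠ 0 → ∀ p : Polynomial ℤ,
        Filter.Tendsto (fun t : ℝ => |(∑ i, c i * a i t) - Polynomial.aeval t p|)
          Filter.atTop Filter.atTop,
      ∀ (X : Type) [MeasurableSpace X] (μ : MeasureTheory.Measure X)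
        [MeasureTheory.IsProbabilityMeasure μ] (T : Equiv.Perm X),
        Measurable (⇑T) → Measurable (⇑T.symm) → Ergodic (⇑T) μ →
        ∀ (A₀ : Set X) (A : Fin k → Set X), MeasurableSet A₀ → (∀ i, MeasurableSet (A i)) →
          ∀ ε : ℝ, 0 < ε → {n : ℕ | n.Prime ∧ μ.real A₀ * ∏ i, μ.real (A i) - ε <
            μ.real (A₀ ∩ ⋂ i : Fin k, (⇑(T ^ ⌊a i (n : ℝ)⌋)) ⁻¹' A i)}.Infinite,
      ∀ (X : Type) [MeasurableSpace X] (μ : MeasureTheory.Measure X)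
        [MeasureTheory.IsProbabilityMeasure μ] (T : Equiv.Perm X),
        Measurable (⇑T) → Measurable (⇑T.symm) → Ergodic (⇑T) μ →
        ∀ (A₀ : Set X) (A : Fin k → Set X), MeasurableSet A₀ → (∀ i, MeasurableSet (A i)) →
          0 < μ A₀ → (∀ i, 0 < μ (A i)) → {n : ℕ | n.Prime ∧
            0 < μ (A₀ ∩ ⋂ i : Fin k, (⇑(T ^ ⌊a i (n : ℝ)⌋)) ⁻¹' A i)}.Infinite] := by
  obtain ⟨R, h1, h2, h3⟩ := hH
  obtain ⟨H, hH⟩ := Pool.Agent.MP_357fb4_an.hext R h1 h2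
  tfae_have 1 → 2 := fun h X _ μ _ T t1 t2 t3 A₀ A a1 a2 ε hε =>
    Pool.Agent.MP_357fb4_an.Iff.sharp H (fun i => hH _ (h3 i)) hg h μ T t1 t2 t3 a1 a2 hε
  tfae_have 2 → 3 := by
    intro h X _ μ _ T t1 t2 t3 A₀ A a1 a2 a3 a4
    have hp : ∀ B : Set X, 0 < μ B → 0 < μ.real B := fun B hB =>
      ENNReal.toReal_pos hB.ne' (MeasureTheory.measure_ne_top μ B)
    refine (h X μ T t1 t2 t3 A₀ A a1 a2 (μ.real A₀ * ∏ i, μ.real (A i))
      (mul_pos (hp _ a3) (Finset.prod_pos fun i _ => hp _ (a4 i)))).mono fun n hn => ⟨hn.1, ?_⟩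
    have := hn.2
    rw [sub_self] at this
    exact (ENNReal.toReal_pos_iff.1 this).1
  tfae_have 3 → 1 := by
    intro h c hc p
    by_contra e
    obtain ⟨X, _, μ, _, T, t1, t2, t3, A₀, A, a1, a2, a3, a4, a5⟩ :=
      Pool.Agent.MP_357fb4_an.Iff.conv H (fun i => hH _ (h3 i)) hc p e
    exact h X μ T t1 t2 t3 A₀ A a1 a2 a3 a4 a5
  tfae_finish

end Pool.Agent.Results.MP_357fb4_an.HittingIff
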