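import Pool.Agent.MP_357fb4_an.Iff.Opt

namespace Pool.Agent.Results.MP_357fb4_an.Optimal

/-- Under the hypotheses of the question, in every invertible probability-preserving system the
multiple intersection has measure above the random value minus any positive number for infinitely
many primes. -/
theorem result (k : ℕ) (a : Fin k → ℝ → ℝ)
    (hH : ∃ R : Subring (Filter.Germ (Filter.atTop : Filter ℝ) ℝ),
      (∀ g ∈ R, g ≠ 0 → ∃ h ∈ R, g * h = 1) ∧
      (∀ f : ℝ → ℝ, (↑f : Filter.Germ (Filter.atTop : Filter ℝ) ℝ) ∈ R →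
        (∀ᶠ t in Filter.atTop, DifferentiableAt ℝ f t) ∧
        (↑(deriv f) : Filter.Germ (Filter.atTop : Filter ℝ) ℝ) ∈ R) ∧
      (∀ i, (↑(a i) : Filter.Germ (Filter.atTop : Filter ℝ) ℝ) ∈ R))
    (hg : ∀ i, ∃ d : ℕ, ∀ᶠ t in Filter.atTop, |a i t| ≤ t ^ d)
    (hf : ∀ c : Fin k → ℝ, c ≠ 0 → ∀ p : Polynomial ℤ,
      Filter.Tendsto (fun t : ℝ => |(∑ i, c i * a i t) - Polynomial.aeval t p|)
        Filter.atTop Filter.atTop)
    (X : Type) [MeasurableSpace X] (μ : MeasureTheory.Measure X)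
    [MeasureTheory.IsProbabilityMeasure μ] (T : Equiv.Perm X)
    (hT : Measurable (⇑T)) (hT' : Measurable (⇑T.symm))
    (hp : MeasureTheory.MeasurePreserving (⇑T) μ μ)
    (A : Set X) (hA : MeasurableSet A) (ε : ℝ) (hε : 0 < ε) :
    {n : ℕ | n.Prime ∧ μ.real A ^ (k + 1) - ε <
      μ.real (A ∩ ⋂ i : Fin k, (⇑(T ^ ⌊a i (n : ℝ)⌋)) ⁻¹' A)}.Infinite := by
  obtain ⟨R, h1, h2, h3⟩ := hH
  obtain ⟨H, hH⟩ := Pool.Agent.MP_357fb4_an.hext R h1 h2
  exact Pool.Agent.MP_357fb4_an.Iff.optimal H (fun i => hH _ (h3 i)) hg hf μ T hT hT' hp hA hε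

end Pool.Agent.Results.MP_357fb4_an.Optimal
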